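import Mathlib

open Cardinal

namespace Pool.Agent.Results.MP_801c54_lc.ContinuumManyBoards

/-- The finite sequence of the first `n` moves of the play `f` (every move is a function from the
set `B` of boards to the natural numbers). -/
def history {B : Type} (f : ℕ → B → ℕ) (n : ℕ) : List (B → ℕ) := (List.range n).map f

/-- ONE wins the play `f` if on some board the sequence of the moves made there is in `S`. -/
def OneWinsPlay {B : Type} (S : Set (ℕ → ℕ)) (f : ℕ → B → ℕ) : Prop :=
  ∃ a : B, (fun n => f n a) ∈ S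

/-- ONE has a winning strategy in the Gale-Stewart game with payoff set `S` on the boards `B`; the
moves of ONE are the moves `f (2 * n)`. -/
def OneHasWinningStrategy (S : Set (ℕ → ℕ)) (B : Type) : Prop :=
  ∃ σ : List (B → ℕ) → (B → ℕ), ∀ f : ℕ → B → ℕ,
    (∀ n, f (2 * n) = σ (history f (2 * n))) → OneWinsPlay S f

/-- TWO has a winning strategy in the Gale-Stewart game with payoff set `S` on the boards `B`; the
moves of TWO are the moves `f (2 * n + 1)`. -/
def TwoHasWinningStrategy (S : Set (ℕ → ℕ)) (B : Type) : Prop :=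
  ∃ τ : List (B → ℕ) → (B → ℕ), ∀ f : ℕ → B → ℕ,
    (∀ n, f (2 * n + 1) = τ (history f (2 * n + 1))) → ¬ OneWinsPlay S f

/-- The game with payoff set `S` on the boards `B` is determined. -/
def Determined (S : Set (ℕ → ℕ)) (B : Type) : Prop :=
  OneHasWinningStrategy S B ∨ TwoHasWinningStrategy S B

/-! ### Proof -/

lemma exists_seq {X : Type} (step : List X → X) :
    ∃ f : ℕ → X, ∀ n, f n = step ((List.range n).map f) := by
  let h : ℕ → List X := fun n => Nat.rec [] (fun _ l => l ++ [step l]) n
  refine ⟨fun n => step (h n), fun n => ?_⟩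
  have key : ∀ n, (List.range n).map (fun n => step (h n)) = h n := by
    intro n
    induction n with
    | zero => rfl
    | succ n ih => rw [List.range_succ, List.map_append, ih]; rfl
  rw [key]

/-- The first `n` values of `z`. -/
def pre (z : ℕ → Bool) (n : ℕ) : List Bool := (List.range n).map z

/-- Restricted strategies of ONE. -/
abbrev Sig := List Bool → ℕ → ℕ

/-- `z` is bad for the earlier `ρ'`, `z'` at the label `k`. -/
def Bad (ρ' : Sig) (z' : ℕ → Bool) (k : ℕ) (z : ℕ → Bool) : Prop :=
  ∀ m, (if k ≤ m then (z m).toNat else 0) = ρ' (pre z' (m + 2)) k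

lemma countable_bad (ρ' : Sig) (z' : ℕ → Bool) (k : ℕ) : {z | Bad ρ' z' k z}.Countable := by
  have hinj : Set.InjOn (fun (z : ℕ → Bool) (i : Fin k) => z i) {z | Bad ρ' z' k z} := by
    intro z hz w hw h
    funext m
    by_cases hm : m < k
    · exact congrFun h ⟨m, hm⟩
    · have h1 := hz m
      have h2 := hw m
      rw [if_pos (by omega)] at h1 h2
      have h3 : (z m).toNat = (w m).toNat := h1.trans h2.symm
      revert h3
      cases z m <;> cases w m <;> simp
  exact Set.MapsTo.countable_of_injOn (Set.mapsTo_univ _ _) hinj Set.countable_univ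

lemma mk_Sig_le : #Sig ≤ 𝔠 := by
  simp [Sig]

lemma exists_choice : ∃ (r : Sig → Sig → Prop) (z : Sig → ℕ → Bool),
    (∀ ρ ρ', ρ ≠ ρ' → r ρ ρ' ∨ r ρ' ρ) ∧
    ∀ ρ ρ', r ρ' ρ → ∀ k, ¬ Bad ρ' (z ρ') k (z ρ) := by
  obtain ⟨r, hwo, hr⟩ := Cardinal.exists_ord_eq Sig
  have hex : ∀ (ρ : Sig) (prev : ∀ ρ', r ρ' ρ → ℕ → Bool),
      ∃ z : ℕ → Bool, ∀ ρ' (h : r ρ' ρ) k, ¬ Bad ρ' (prev ρ' h) k z := by
    intro ρ prev
    by_contra! hcon
    have hcover : (⋃ j : {ρ' // r ρ' ρ} × ℕ, {z | Bad j.1.1 (prev j.1.1 j.1.2) j.2 z}) =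
        Set.univ := by
      rw [Set.eq_univ_iff_forall]
      intro z
      obtain ⟨ρ', h, k, hb⟩ := hcon z
      exact Set.mem_iUnion.2 ⟨⟨⟨ρ', h⟩, k⟩, hb⟩
    have h1 := Cardinal.mk_iUnion_le
      (fun j : {ρ' // r ρ' ρ} × ℕ => {z | Bad j.1.1 (prev j.1.1 j.1.2) j.2 z})
    rw [hcover] at h1
    have h2 : #(Set.univ : Set (ℕ → Bool)) = 𝔠 := by simp
    rw [h2] at h1
    have h3 : (⨆ j : {ρ' // r ρ' ρ} × ℕ,
        #{z | Bad j.1.1 (prev j.1.1 j.1.2) j.2 z}) ≤ ℵ₀ := by
      apply ciSup_le'
      intro j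
      exact (countable_bad _ _ _).le_aleph0
    have h4 : #{ρ' // r ρ' ρ} < 𝔠 := by
      have h5 : #{ρ' // r ρ' ρ} < #Sig := by
        have := Cardinal.card_typein_lt ρ hr
        rwa [Ordinal.card_typein] at this
      exact h5.trans_le mk_Sig_le
    have h5 : #({ρ' // r ρ' ρ} × ℕ) < 𝔠 := by
      rw [Cardinal.mk_prod]
      simp only [Cardinal.lift_id]
      exact Cardinal.mul_lt_of_lt Cardinal.aleph0_le_continuum h4
        (by simpa using Cardinal.aleph0_lt_continuum)
    have h6 : #({ρ' // r ρ' ρ} × ℕ) * (⨆ j : {ρ' // r ρ' ρ} × ℕ,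
        #{z | Bad j.1.1 (prev j.1.1 j.1.2) j.2 z}) < 𝔠 :=
      Cardinal.mul_lt_of_lt Cardinal.aleph0_le_continuum h5
        (h3.trans_lt Cardinal.aleph0_lt_continuum)
    exact absurd (h1.trans_lt h6) (lt_irrefl _)
  let F : ∀ ρ : Sig, (∀ ρ', r ρ' ρ → ℕ → Bool) → ℕ → Bool := fun ρ prev =>
    Classical.choose (hex ρ prev)
  let z : Sig → ℕ → Bool := hwo.wf.fix F
  refine ⟨r, z, ?_, ?_⟩
  · intro ρ ρ' hne
    rcases trichotomous_of r ρ ρ' with h | h | h
    · exact Or.inl h
    · exact absurd h hne
    · exact Or.inr h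
  · intro ρ ρ' h k
    have h1 : z ρ = F ρ (fun ρ' _ => z ρ') := hwo.wf.fix_eq F ρ
    rw [h1]
    exact Classical.choose_spec (hex ρ (fun ρ' _ => z ρ')) ρ' h k

/-- The sequence of moves on the board with label `k` when ONE follows the restricted strategy `ρ`
and TWO plays the label and then the bits of `z`. -/
def out (ρ : Sig) (z : ℕ → Bool) (k : ℕ) (n : ℕ) : ℕ :=
  if n % 2 = 0 then ρ (pre z (n / 2)) k
  else if n = 1 then k
  else if k ≤ (n - 3) / 2 then (z ((n - 3) / 2)).toNat else 0

lemma out_even (ρ : Sig) (z : ℕ → Bool) (k n : ℕ) : out ρ z k (2 * n) = ρ (pre z n) k := by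
  simp [out]

lemma out_one (ρ : Sig) (z : ℕ → Bool) (k : ℕ) : out ρ z k 1 = k := by
  simp [out]

lemma out_odd (ρ : Sig) (z : ℕ → Bool) (k m : ℕ) :
    out ρ z k (2 * m + 3) = if k ≤ m then (z m).toNat else 0 := by
  have h1 : ¬ (2 * m + 3) % 2 = 0 := by omega
  have h2 : ¬ (2 * m + 3) = 1 := by omega
  have h3 : (2 * m + 3 - 3) / 2 = m := by omega
  simp only [out, if_neg h1, if_neg h2, h3]

/-- The target set of TWO. -/
def TT (z : Sig → ℕ → Bool) : Set (ℕ → ℕ) := {t | ∃ ρ k, t = out ρ (z ρ) k}

lemma no_swap (r : Sig → Sig → Prop) (z : Sig → ℕ → Bool)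
    (hr : ∀ ρ ρ', ρ ≠ ρ' → r ρ ρ' ∨ r ρ' ρ)
    (hz : ∀ ρ ρ', r ρ' ρ → ∀ k, ¬ Bad ρ' (z ρ') k (z ρ)) (t t' : ℕ → ℕ)
    (ht : t ∈ TT z) (ht' : t' ∈ TT z) (h1 : t 1 = t' 1) (h2 : t 2 ≠ t' 2)
    (h3 : ∀ m, t (2 * m + 3) = t' (2 * m + 4)) (h4 : ∀ m, t' (2 * m + 3) = t (2 * m + 4)) :
    False := by
  obtain ⟨ρ, k, rfl⟩ := ht
  obtain ⟨ρ', k', rfl⟩ := ht'
  rw [out_one, out_one] at h1
  subst h1
  have hne : ρ ≠ ρ' := by
    rintro rfl
    exact h2 rfl
  rcases hr ρ ρ' hne with h | h
  · apply hz ρ' ρ h k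
    intro m
    have := h4 m
    rw [out_odd, show 2 * m + 4 = 2 * (m + 2) by ring, out_even] at this
    exact this
  · apply hz ρ ρ' h k
    intro m
    have := h3 m
    rw [out_odd, show 2 * m + 4 = 2 * (m + 2) by ring, out_even] at this
    exact this

lemma history_length {B : Type} (f : ℕ → B → ℕ) (n : ℕ) : (history f n).length = n := by
  simp [history]

lemma history_get {B : Type} (f : ℕ → B → ℕ) (n i : ℕ) (hi : i < n) :
    (history f n).getD i 0 = f i := by
  simp [history, hi]

/-- ONE wins on uncountably many boards. -/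
lemma one_wins (z : Sig → ℕ → Bool)
    (hT : ∀ t t' : ℕ → ℕ, t ∈ TT z → t' ∈ TT z → t 1 = t' 1 → t 2 ≠ t' 2 →
      (∀ m, t (2 * m + 3) = t' (2 * m + 4)) → (∀ m, t' (2 * m + 3) = t (2 * m + 4)) → False)
    (B : Type) (hB : Uncountable B) : OneHasWinningStrategy (TT z)ᶜ B := by
  classical
  have hpair : ∀ g : B → ℕ, ∃ p : B × B, p.1 ≠ p.2 ∧ g p.1 = g p.2 := by
    intro g
    have : ¬ Function.Injective g := fun hg => not_countable hg.countable
    rw [Function.not_injective_iff] at this
    obtain ⟨a, b, h1, h2⟩ := this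
    exact ⟨(a, b), h2, h1⟩
  choose pair hne heq using hpair
  let σ : List (B → ℕ) → (B → ℕ) := fun h b =>
    if h.length = 0 then 0
    else if h.length = 2 then (if b = (pair (h.getD 1 0)).2 then 1 else 0)
    else if b = (pair (h.getD 1 0)).1 then h.getD (h.length - 1) 0 (pair (h.getD 1 0)).2
    else if b = (pair (h.getD 1 0)).2 then h.getD (h.length - 1) 0 (pair (h.getD 1 0)).1
    else 0
  refine ⟨σ, fun f hf => ?_⟩
  set α := (pair (f 1)).1 with hα
  set β := (pair (f 1)).2 with hβ
  have hαβ : α ≠ β := hne (f 1)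
  have hlab : f 1 α = f 1 β := heq (f 1)
  by_contra hcon
  unfold OneWinsPlay at hcon
  push Not at hcon
  have hTα : (fun n => f n α) ∈ TT z := by
    have := hcon α
    rwa [Set.mem_compl_iff, not_not] at this
  have hTβ : (fun n => f n β) ∈ TT z := by
    have := hcon β
    rwa [Set.mem_compl_iff, not_not] at this
  have hf2 : f 2 = σ (history f 2) := by simpa using hf 1
  have hf4 : ∀ m, f (2 * m + 4) = σ (history f (2 * m + 4)) := fun m => by
    have := hf (m + 2)
    rw [show 2 * (m + 2) = 2 * m + 4 by ring] at this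
    exact this
  refine hT _ _ hTα hTβ hlab ?_ ?_ ?_
  · rw [hf2]
    simp only [σ, history_length]
    rw [history_get f 2 1 (by omega), ← hα, ← hβ]
    simp [hαβ]
  · intro m
    rw [hf4 m]
    simp only [σ, history_length]
    rw [history_get f _ 1 (by omega), ← hα, ← hβ, if_neg (by omega), if_neg (by omega),
      if_neg hαβ.symm, if_pos rfl, show 2 * m + 4 - 1 = 2 * m + 3 by omega,
      history_get f _ _ (by omega)]
  · intro m
    rw [hf4 m]
    simp only [σ, history_length]
    rw [history_get f _ 1 (by omega), ← hα, ← hβ, if_neg (by omega), if_neg (by omega),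
      if_pos rfl, show 2 * m + 4 - 1 = 2 * m + 3 by omega,
      history_get f _ _ (by omega)]

/-- ONE and TWO do not both have winning strategies, on different numbers of boards. -/
lemma not_both (S : Set (ℕ → ℕ)) (U B : Type) [Nonempty B] (h1 : OneHasWinningStrategy S U)
    (h2 : TwoHasWinningStrategy S B) : False := by
  classical
  obtain ⟨σ, hσ⟩ := h1
  obtain ⟨τ, hτ⟩ := h2
  obtain ⟨b0⟩ := ‹Nonempty B›
  let step : List (U → B → ℕ) → (U → B → ℕ) := fun h =>
    if h.length % 2 = 0 then
      fun u b => if b = b0 then σ (h.map fun g u => g u b0) u else 0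
    else fun u => τ (h.map fun g => g u)
  obtain ⟨G, hG⟩ := exists_seq step
  have hone : OneWinsPlay S (fun n u => G n u b0) := by
    apply hσ
    intro n
    have := hG (2 * n)
    funext u
    rw [this]
    simp only [step, List.length_map, List.length_range]
    rw [if_pos (by omega)]
    simp [history, Function.comp_def]
  obtain ⟨u, hu⟩ := hone
  refine hτ (fun n => G n u) ?_ ⟨b0, hu⟩
  intro n
  have := hG (2 * n + 1)
  rw [this]
  simp only [step, List.length_map, List.length_range]
  rw [if_neg (by omega)]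
  simp [history, Function.comp_def]

lemma pre_length (z : ℕ → Bool) (n : ℕ) : (pre z n).length = n := by simp [pre]

lemma pre_getD (z : ℕ → Bool) (n i : ℕ) (hi : i < n) : (pre z n).getD i false = z i := by
  simp [pre, hi]

/-- ONE has no winning strategy on countably many boards. -/
lemma one_not_wins (w : Sig → ℕ → Bool) (B : Type) [Countable B] :
    ¬ OneHasWinningStrategy (TT w)ᶜ B := by
  classical
  rintro ⟨σ, hσ⟩
  obtain ⟨ι, hι⟩ := Countable.exists_injective_nat B
  let two : (ℕ → Bool) → ℕ → B → ℕ := fun z n b =>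
    if n = 1 then ι b else if ι b ≤ (n - 3) / 2 then (z ((n - 3) / 2)).toNat else 0
  let step : (ℕ → Bool) → List (B → ℕ) → (B → ℕ) := fun z h =>
    if h.length % 2 = 0 then σ h else two z h.length
  choose play hplay using fun z => exists_seq (step z)
  have hpre : ∀ (n : ℕ) (z z' : ℕ → Bool), (∀ i < n, z i = z' i) →
      ∀ j ≤ 2 * n, play z j = play z' j := by
    intro n z z' hz j
    induction j using Nat.strong_induction_on with
    | _ j ih =>
      intro hj
      have hh : (List.range j).map (play z) = (List.range j).map (play z') := by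
        apply List.map_congr_left
        intro i hi
        rw [List.mem_range] at hi
        exact ih i hi (by omega)
      rw [hplay z j, hplay z' j, hh]
      simp only [step, List.length_map, List.length_range]
      by_cases hpar : j % 2 = 0
      · rw [if_pos hpar, if_pos hpar]
      · rw [if_neg hpar, if_neg hpar]
        by_cases h1 : j = 1
        · simp [two, h1]
        · simp only [two, if_neg h1]
          rw [hz ((j - 3) / 2) (by omega)]
  let ρ : Sig := fun s k =>
    if h : ∃ b, ι b = k then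
      play (fun i => s.getD i false) (2 * s.length) (Classical.choose h) else 0
  have hρ : ∀ (z : ℕ → Bool) (n : ℕ) (b : B), play z (2 * n) b = ρ (pre z n) (ι b) := by
    intro z n b
    have hex : ∃ b', ι b' = ι b := ⟨b, rfl⟩
    have hb : Classical.choose hex = b := hι (Classical.choose_spec hex)
    simp only [ρ, dif_pos hex, hb, pre_length]
    rw [hpre n z (fun i => (pre z n).getD i false) (fun i hi => (pre_getD z n i hi).symm)
      (2 * n) le_rfl]
  have hodd : ∀ (z : ℕ → Bool) (n : ℕ), n % 2 = 1 → play z n = two z n := by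
    intro z n hn
    rw [hplay z n]
    simp only [step, List.length_map, List.length_range]
    rw [if_neg (by omega)]
  have hout : ∀ b, (fun n => play (w ρ) n b) = out ρ (w ρ) (ι b) := by
    intro b
    funext n
    rcases Nat.even_or_odd' n with ⟨m, rfl | rfl⟩
    · rw [hρ, out_even]
    · rw [hodd _ _ (by omega)]
      by_cases h1 : m = 0
      · subst h1
        simp [two, out_one]
      · obtain ⟨m', rfl⟩ : ∃ m', m = m' + 1 := ⟨m - 1, by omega⟩
        rw [show 2 * (m' + 1) + 1 = 2 * m' + 3 by ring, out_odd]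
        simp only [two]
        rw [if_neg (by omega), show (2 * m' + 3 - 3) / 2 = m' by omega]
  obtain ⟨b, hb⟩ := hσ (play (w ρ)) (fun n => by
    rw [hplay (w ρ) (2 * n)]
    simp only [step, List.length_map, List.length_range]
    rw [if_pos (by omega)]
    rfl)
  apply hb
  exact ⟨ρ, ι b, hout b⟩

/-- **Answer to Q1 (positive, in ZFC).**  There is a set `S` of sequences of natural numbers such
that ONE has a winning strategy in the game with payoff set `S` on any uncountable set of boards
(in particular on `2 ^ ℵ₀` boards, so that this game is determined), while the game with payoff set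
`S` on any nonempty countable set of boards (in particular on `ℵ₀` boards) is undetermined. -/
theorem result : ∃ S : Set (ℕ → ℕ),
    (∀ B : Type, Uncountable B → OneHasWinningStrategy S B) ∧
    (∀ B : Type, Nonempty B → Countable B → ¬ Determined S B) := by
  obtain ⟨r, z, hr, hz⟩ := exists_choice
  have h1 : ∀ B : Type, Uncountable B → OneHasWinningStrategy (TT z)ᶜ B :=
    fun B hB => one_wins z (no_swap r z hr hz) B hB
  refine ⟨(TT z)ᶜ, h1, ?_⟩
  rintro B hne hc (h | h)
  · exact one_not_wins z B h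
  · exact not_both _ ℝ B (h1 ℝ inferInstance) h

end Pool.Agent.Results.MP_801c54_lc.ContinuumManyBoards
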